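import Pool.Agent.H10.T2.Targets5

/-!
# QG: group theory of the factor group
-/

set_option autoImplicit false

open scoped Classical ComplexConjugate

namespace Pool.Agent.H54.T2.QG

open AMc AMe AMt Pool.Agent.H77.EA.All

theorem cmr {G : Type} [Group G] {A B : Subgroup G} (h : A ≤ B) :
    Nat.card A * A.relIndex B = Nat.card B := by
  have := Subgroup.relIndex_mul_relIndex ⊥ A B bot_le h
  rwa [Subgroup.relIndex_bot_left, Subgroup.relIndex_bot_left] at this

/-- the set of the `ℓ`-elements when a central subgroup has `ℓ`-power index -/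
theorem lemA {G : Type} [Group G] [Finite G] (ℓ : ℕ) [hℓ : Fact ℓ.Prime] (Z : Subgroup G)
    (hZ : Z ≤ Subgroup.center G) (k : ℕ) (hk : Z.index = ℓ ^ k) :
    ∃ S0 : Subgroup G, IsPGroup ℓ S0 ∧ (∀ b, b ∈ S0 ↔ ∃ k : ℕ, orderOf b = ℓ ^ k) ∧
      ¬ ℓ ∣ S0.index ∧ S0 ⊔ Z = ⊤ := by
  let S : Sylow ℓ G := default
  have hnd : ¬ ℓ ∣ (S : Subgroup G).index := S.not_dvd_index
  have hsup : (S : Subgroup G) ⊔ Z = ⊤ := by
    rw [← Subgroup.index_eq_one]
    have h1 : ((S : Subgroup G) ⊔ Z).index ∣ ℓ ^ k := by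
      rw [← hk]; exact Subgroup.index_dvd_of_le le_sup_right
    have h2 : ((S : Subgroup G) ⊔ Z).index ∣ (S : Subgroup G).index :=
      Subgroup.index_dvd_of_le le_sup_left
    obtain ⟨j, _, hj⟩ := (Nat.dvd_prime_pow hℓ.out).1 h1
    rcases Nat.eq_zero_or_pos j with hj0 | hj0
    · rw [hj, hj0, pow_zero]
    · exfalso
      apply hnd
      refine dvd_trans ?_ h2
      rw [hj]
      exact dvd_pow_self ℓ hj0.ne'
  have hnor : (S : Subgroup G).Normal := by
    rw [← Subgroup.normalizer_eq_top_iff, eq_top_iff, ← hsup]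
    exact sup_le Subgroup.le_normalizer (hZ.trans (Subgroup.center_le_normalizer _))
  refine ⟨S, S.isPGroup', ?_, hnd, hsup⟩
  intro b
  constructor
  · intro hb
    obtain ⟨j, hj⟩ := (IsPGroup.iff_orderOf.1 S.isPGroup') ⟨b, hb⟩
    exact ⟨j, by rw [← hj, Subgroup.orderOf_mk]⟩
  · rintro ⟨j, hj⟩
    have h1 : IsPGroup ℓ (Subgroup.zpowers b) :=
      IsPGroup.of_card (n := j) (by rw [Nat.card_zpowers, hj])
    obtain ⟨T, hT⟩ := h1.exists_le_sylow
    obtain ⟨g, hg⟩ := MulAction.exists_smul_eq G S T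
    have hST : S = T := by rw [← hg]; exact (Sylow.smul_eq_of_normal (g := g) (P := S)).symm
    rw [hST]
    exact hT (Subgroup.mem_zpowers b)

/-- the ambient version -/
theorem lemB {Q : Type} [Group Q] [Finite Q] (ℓ : ℕ) [hℓ : Fact ℓ.Prime] (Z X : Subgroup Q)
    (hZX : Z ≤ X) (hZ : ∀ z ∈ Z, ∀ g, z * g = g * z) (k : ℕ) (hk : Z.relIndex X = ℓ ^ k) :
    (∀ b, b ∈ Subgroup.closure {b | b ∈ X ∧ ∃ k : ℕ, orderOf b = ℓ ^ k} ↔
      b ∈ X ∧ ∃ k : ℕ, orderOf b = ℓ ^ k) ∧
    IsPGroup ℓ (Subgroup.closure {b | b ∈ X ∧ ∃ k : ℕ, orderOf b = ℓ ^ k}) ∧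
    Subgroup.closure {b | b ∈ X ∧ ∃ k : ℕ, orderOf b = ℓ ^ k} ≤ X ∧
    ¬ ℓ ∣ (Subgroup.closure {b | b ∈ X ∧ ∃ k : ℕ, orderOf b = ℓ ^ k}).relIndex X ∧
    Subgroup.closure {b | b ∈ X ∧ ∃ k : ℕ, orderOf b = ℓ ^ k} ⊔ Z = X := by
  obtain ⟨S0, h1, h2, h3, h4⟩ := lemA (G := X) ℓ (Z.subgroupOf X) (by
    intro z hz
    rw [Subgroup.mem_center_iff]
    intro g
    apply Subtype.ext
    exact (hZ z (Subgroup.mem_subgroupOf.1 hz) g).symm) k hk
  have hS : ∀ b, b ∈ S0.map X.subtype ↔ b ∈ X ∧ ∃ k : ℕ, orderOf b = ℓ ^ k := by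
    intro b
    constructor
    · rintro ⟨c, hc, rfl⟩
      obtain ⟨j, hj⟩ := (h2 c).1 hc
      exact ⟨c.2, j, by rw [← hj]; exact Subgroup.orderOf_coe c⟩
    · rintro ⟨hb, j, hj⟩
      exact ⟨⟨b, hb⟩, (h2 _).2 ⟨j, by rw [← hj, Subgroup.orderOf_mk]⟩, rfl⟩
  have hcl : Subgroup.closure {b | b ∈ X ∧ ∃ k : ℕ, orderOf b = ℓ ^ k} = S0.map X.subtype := by
    apply le_antisymm
    · rw [Subgroup.closure_le]
      intro b hb
      exact (hS b).2 hb
    · intro b hb
      exact Subgroup.subset_closure ((hS b).1 hb)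
  rw [hcl]
  refine ⟨hS, h1.map _, ?_, ?_, ?_⟩
  · intro b hb
    exact ((hS b).1 hb).1
  · have : (S0.map X.subtype).subgroupOf X = S0 :=
      Subgroup.comap_map_eq_self_of_injective X.subtype_injective S0
    show ¬ ℓ ∣ ((S0.map X.subtype).subgroupOf X).index
    rw [this]
    exact h3
  · have h5 : (S0 ⊔ Z.subgroupOf X).map X.subtype = X := by
      rw [h4, ← MonoidHom.range_eq_map, Subgroup.range_subtype]
    rw [Subgroup.map_sup, Subgroup.map_subgroupOf_eq_of_le hZX] at h5
    exact h5

section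

variable {Γ : Type} [Group Γ] [Fintype Γ] {K U : Subgroup Γ} {θ : Γ → ℂ} {H : Type} [Group H]
  [Fintype H] {p : H →* Γ} {i : K →* H} {τ : H → ℂ} {Q : Type} [Group Q] [Fintype Q]
  {q : H →* Q} {Zs : Subgroup Q} {νs : Q → ℂ}

theorem mem_iff (hQ : Qt K U θ p i τ q Zs νs) {V : Subgroup Γ} (hKV : K ≤ V) (a : H) :
    q a ∈ (V.comap p).map q ↔ p a ∈ V := by
  constructor
  · rintro ⟨b, hb, hba⟩
    have h1 : q (b⁻¹ * a) = 1 := by rw [map_mul, map_inv, hba, inv_mul_cancel]
    obtain ⟨k, hk⟩ := (hQ.ker _).1 h1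
    have h2 : p (b⁻¹ * a) = k := by rw [← hk, hQ.trp.pi]
    have h3 : p a = p b * k := by rw [← h2, map_mul, map_inv]; group
    rw [h3]
    exact V.mul_mem hb (hKV k.2)
  · intro h
    exact ⟨a, h, rfl⟩

theorem i_inj (hQ : Qt K U θ p i τ q Zs νs) : Function.Injective i := by
  intro a b hab
  apply Subtype.ext
  rw [← hQ.trp.pi a, ← hQ.trp.pi b, hab]

theorem q_inj (hQ : Qt K U θ p i τ q Zs νs) {z : H} (hz : p z = 1) (h : q z = 1) : z = 1 := by
  obtain ⟨k, hk⟩ := (hQ.ker _).1 h
  have h1 : (k : Γ) = 1 := by rw [← hQ.trp.pi k, hk, hz]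
  have h2 : k = 1 := Subtype.ext h1
  rw [← hk, h2, map_one]

theorem card_hom {A B : Type} [Group A] [Finite A] [Group B] (f : A →* B) :
    Nat.card f.ker * Nat.card f.range = Nat.card A := by
  rw [← Subgroup.index_ker, Subgroup.card_mul_index]

theorem card_zs (hQ : Qt K U θ p i τ q Zs νs) : Nat.card Zs = Nat.card p.ker := by
  have h1 : Nat.card (p.ker.map q) = Nat.card p.ker := by
    refine (Nat.card_congr (Equiv.ofBijective
      (fun z : p.ker => (⟨q z, ⟨z, z.2, rfl⟩⟩ : p.ker.map q)) ⟨?_, ?_⟩)).symm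
    · intro a b hab
      have h2 : q (a : H) = q (b : H) := congrArg Subtype.val hab
      have h3 : (a : H)⁻¹ * b = 1 := by
        apply q_inj hQ
        · rw [map_mul, map_inv, (MonoidHom.mem_ker).1 a.2, (MonoidHom.mem_ker).1 b.2]; simp
        · rw [map_mul, map_inv, h2]; simp
      apply Subtype.ext
      exact (inv_mul_eq_one.1 h3)
    · rintro ⟨_, z, hz, rfl⟩
      exact ⟨⟨z, hz⟩, rfl⟩
  rw [hQ.zs, h1]

theorem card_eq (hQ : Qt K U θ p i τ q Zs νs) {V : Subgroup Γ} (hKV : K ≤ V) (hVU : V ≤ U) :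
    Nat.card ((V.comap p).map q) * Nat.card K = Nat.card V * Nat.card Zs := by
  have hV : V ≤ p.range := by rw [hQ.trp.rng]; exact hVU
  set W := V.comap p with hW
  -- `q` on `W`
  have h1 := card_hom (q.comp W.subtype)
  have h2 : Nat.card (q.comp W.subtype).ker = Nat.card K := by
    have hiW : ∀ k : K, i k ∈ W := by
      intro k
      rw [hW, Subgroup.mem_comap, hQ.trp.pi]
      exact hKV k.2
    refine (Nat.card_congr (Equiv.ofBijective
      (fun k : K => (⟨⟨i k, hiW k⟩, by
        rw [MonoidHom.mem_ker]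
        exact (hQ.ker _).2 ⟨k, rfl⟩⟩ : (q.comp W.subtype).ker)) ⟨?_, ?_⟩)).symm
    · intro a b hab
      apply i_inj hQ
      have := congrArg (fun x : (q.comp W.subtype).ker => ((x : W) : H)) hab
      exact this
    · rintro ⟨⟨x, hx⟩, hx'⟩
      rw [MonoidHom.mem_ker] at hx'
      obtain ⟨k, hk⟩ := (hQ.ker x).1 hx'
      refine ⟨k, ?_⟩
      apply Subtype.ext
      apply Subtype.ext
      exact hk
  have h3 : (q.comp W.subtype).range = W.map q := by
    rw [MonoidHom.range_comp, Subgroup.range_subtype]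
  -- `p` on `W`
  have h4 := card_hom (p.comp W.subtype)
  have h5 : Nat.card (p.comp W.subtype).ker = Nat.card p.ker := by
    refine (Nat.card_congr (Equiv.ofBijective
      (fun z : p.ker => (⟨⟨z, by
        rw [hW, Subgroup.mem_comap, (MonoidHom.mem_ker).1 z.2]; exact V.one_mem⟩, by
        rw [MonoidHom.mem_ker]
        exact (MonoidHom.mem_ker).1 z.2⟩ : (p.comp W.subtype).ker)) ⟨?_, ?_⟩)).symm
    · intro a b hab
      apply Subtype.ext
      have := congrArg (fun x : (p.comp W.subtype).ker => ((x : W) : H)) hab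
      exact this
    · rintro ⟨⟨x, hx⟩, hx'⟩
      rw [MonoidHom.mem_ker] at hx'
      exact ⟨⟨x, hx'⟩, rfl⟩
  have h6 : (p.comp W.subtype).range = V := by
    rw [MonoidHom.range_comp, Subgroup.range_subtype, hW, Subgroup.map_comap_eq]
    exact inf_eq_right.2 hV
  rw [h2, h3] at h1
  rw [h5, h6, ← card_zs hQ] at h4
  rw [mul_comm, h1, ← h4, mul_comm]

theorem zs_central (hQ : Qt K U θ p i τ q Zs νs) : ∀ z ∈ Zs, ∀ g, z * g = g * z := by
  intro z hz g
  rw [hQ.zs] at hz
  obtain ⟨y, hy, rfl⟩ := hz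
  obtain ⟨b, rfl⟩ := hQ.sur g
  rw [← map_mul, ← map_mul, hQ.trp.kerp y hy b]

theorem zs_le (hQ : Qt K U θ p i τ q Zs νs) (V : Subgroup Γ) : Zs ≤ (V.comap p).map q := by
  rw [hQ.zs]
  apply Subgroup.map_mono
  intro z hz
  rw [Subgroup.mem_comap, (MonoidHom.mem_ker).1 hz]
  exact V.one_mem

theorem relIndex_eq (hQ : Qt K U θ p i τ q Zs νs) {E V : Subgroup Γ} (hKE : K ≤ E) (hEV : E ≤ V)
    (hVU : V ≤ U) : ((E.comap p).map q).relIndex ((V.comap p).map q) = E.relIndex V := by
  have h1 := card_eq hQ (hKE.trans hEV) hVU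
  have h2 := card_eq hQ hKE (hEV.trans hVU)
  have h3 : (E.comap p).map q ≤ (V.comap p).map q := Subgroup.map_mono (Subgroup.comap_mono hEV)
  have h4 := cmr h3
  have h5 := cmr hEV
  have hK0 : 0 < Nat.card K := Nat.card_pos
  have hE0 : 0 < Nat.card ((E.comap p).map q) := Nat.card_pos
  have h6 : Nat.card ((E.comap p).map q) * Nat.card K *
      ((E.comap p).map q).relIndex ((V.comap p).map q) =
      Nat.card ((E.comap p).map q) * Nat.card K * E.relIndex V := by
    calc Nat.card ((E.comap p).map q) * Nat.card K *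
          ((E.comap p).map q).relIndex ((V.comap p).map q)
        = Nat.card ((E.comap p).map q) * ((E.comap p).map q).relIndex ((V.comap p).map q) *
          Nat.card K := by ring
      _ = Nat.card V * Nat.card Zs := by rw [h4, h1]
      _ = (Nat.card E * Nat.card Zs) * E.relIndex V := by rw [← h5]; ring
      _ = _ := by rw [← h2]
  exact Nat.eq_of_mul_eq_mul_left (Nat.mul_pos hE0 hK0) h6

theorem relIndex_zs (hQ : Qt K U θ p i τ q Zs νs) {V : Subgroup Γ} (hKV : K ≤ V)
    (hVU : V ≤ U) : Zs.relIndex ((V.comap p).map q) = K.relIndex V := by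
  have h1 := card_eq hQ hKV hVU
  have h4 := cmr (zs_le hQ V)
  have h5 := cmr hKV
  have hK0 : 0 < Nat.card K := Nat.card_pos
  have hZ0 : 0 < Nat.card Zs := Nat.card_pos
  have h6 : Nat.card Zs * Nat.card K * Zs.relIndex ((V.comap p).map q) =
      Nat.card Zs * Nat.card K * K.relIndex V := by
    calc Nat.card Zs * Nat.card K * Zs.relIndex ((V.comap p).map q)
        = Nat.card Zs * Zs.relIndex ((V.comap p).map q) * Nat.card K := by ring
      _ = Nat.card V * Nat.card Zs := by rw [h4, h1]
      _ = _ := by rw [← h5]; ring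
  exact Nat.eq_of_mul_eq_mul_left (Nat.mul_pos hZ0 hK0) h6

theorem cyc (hQ : Qt K U θ p i τ q Zs νs) : IsCyclic Zs := by
  have hcen : ∀ z : H, p z = 1 → z ∈ Subgroup.center H := by
    intro z hz
    rw [Subgroup.mem_center_iff]
    intro g
    exact (hQ.trp.kerp z hz g).symm
  have hτ1 : τ 1 ≠ 0 := by
    obtain ⟨d, hd0, hd⟩ := ((fA3 H).1 τ hQ.trp.tau).2
    rw [hd]
    exact_mod_cast hd0.ne'
  let f : p.ker →* ℂ :=
    { toFun := fun z => τ z / τ 1
      map_one' := by
        show τ ((1 : p.ker) : H) / τ 1 = 1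
        rw [Subgroup.coe_one, div_self hτ1]
      map_mul' := by
        intro z w
        have h1 := (fZH H τ hQ.trp.tau z (hcen z ((MonoidHom.mem_ker).1 z.2))).1 w
        show τ ((z : H) * w) / τ 1 = τ z / τ 1 * (τ w / τ 1)
        field_simp
        exact h1 }
  have hf : Function.Injective f := by
    intro z w hzw
    have h1 : f (z * w⁻¹) = 1 := by
      rw [map_mul, hzw, ← map_mul, mul_inv_cancel, map_one]
    have h2 : τ ((z * w⁻¹ : p.ker) : H) / τ 1 = 1 := h1
    have h3 : τ ((z * w⁻¹ : p.ker) : H) = τ 1 := by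
      rw [div_eq_iff hτ1, one_mul] at h2
      exact h2
    have h4 := hQ.trp.fai _ ((MonoidHom.mem_ker).1 (z * w⁻¹).2) h3
    have h5 : z * w⁻¹ = 1 := Subtype.ext h4
    exact mul_inv_eq_one.1 h5
  have hc : IsCyclic p.ker := isCyclic_of_injective_ringHom f hf
  rw [hQ.zs]
  exact isCyclic_of_surjective (q.subgroupMap p.ker) (q.subgroupMap_surjective p.ker)

end

theorem qg : T_QG := by
  intro ℓ _ Γ _ _ K U θ H _ _ p i τ Q _ _ q Zs νs hQ
  have hpU : ∀ a : H, p a ∈ U := by
    intro a
    rw [← hQ.trp.rng]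
    exact ⟨a, rfl⟩
  have hstar : ∀ a : H, ∀ E : Subgroup Γ, K ≤ E →
      ((E.comap p).map q).map (MulAut.conj (q a)).toMonoidHom =
      ((E.map (MulAut.conj (p a)).toMonoidHom).comap p).map q := by
    intro a E hKE
    have hKE' : K ≤ E.map (MulAut.conj (p a)).toMonoidHom := by
      intro k hk
      refine ⟨(p a)⁻¹ * k * p a, ?_, ?_⟩
      · have := hQ.trp.nin.nor (p a)⁻¹ (U.inv_mem (hpU a)) k hk
        rw [inv_inv] at this
        exact hKE this
      · simp [MulAut.conj_apply]
        group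
    ext x
    obtain ⟨b, rfl⟩ := hQ.sur x
    rw [mem_iff hQ hKE']
    constructor
    · rintro ⟨y, hy, hyx⟩
      have h1 : y = q (a⁻¹ * b * a) := by
        have h2 : q a * y * (q a)⁻¹ = q b := by simpa [MulAut.conj_apply] using hyx
        rw [map_mul, map_mul, map_inv, ← h2]
        group
      rw [h1] at hy
      have h3 : p (a⁻¹ * b * a) ∈ E := (mem_iff hQ hKE _).1 hy
      refine ⟨_, h3, ?_⟩
      simp [MulAut.conj_apply]
      group
    · rintro ⟨e, he, hex⟩
      refine ⟨q (a⁻¹ * b * a), ?_, ?_⟩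
      · have h4 : p (a⁻¹ * b * a) = e := by
          have h5 : p a * e * (p a)⁻¹ = p b := by simpa [MulAut.conj_apply] using hex
          rw [map_mul, map_mul, map_inv, ← h5]
          group
        apply (mem_iff hQ hKE _).2
        rw [h4]
        exact he
      · simp [MulAut.conj_apply]
        group
  have hconj : ∀ E : Subgroup Γ, K ≤ E → ∀ a : H,
      (Qp ℓ p q E).map (MulAut.conj (q a)).toMonoidHom =
        Qp ℓ p q (E.map (MulAut.conj (p a)).toMonoidHom) := by
    intro E hKE a
    unfold Qp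
    rw [MonoidHom.map_closure]
    congr 1
    ext x
    rw [← hstar a E hKE]
    constructor
    · rintro ⟨y, ⟨hy1, j, hj⟩, rfl⟩
      refine ⟨⟨y, hy1, rfl⟩, j, ?_⟩
      rw [← hj]
      exact orderOf_injective (MulAut.conj (q a)).toMonoidHom (MulAut.conj (q a)).injective y
    · rintro ⟨⟨y, hy1, rfl⟩, j, hj⟩
      refine ⟨y, ⟨hy1, j, ?_⟩, rfl⟩
      rw [← hj]
      exact (orderOf_injective (MulAut.conj (q a)).toMonoidHom (MulAut.conj (q a)).injective y).symm
  have hB : ∀ E : Subgroup Γ, K ≤ E → E ≤ U → (∃ k, K.relIndex E = ℓ ^ k) →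
      (∀ b, b ∈ Qp ℓ p q E ↔ b ∈ (E.comap p).map q ∧ ∃ k : ℕ, orderOf b = ℓ ^ k) ∧
      IsPGroup ℓ (Qp ℓ p q E) ∧ Qp ℓ p q E ≤ (E.comap p).map q ∧
      ¬ ℓ ∣ (Qp ℓ p q E).relIndex ((E.comap p).map q) ∧
      Qp ℓ p q E ⊔ Zs = (E.comap p).map q := by
    rintro E hKE hEU ⟨k, hk⟩
    exact lemB ℓ Zs ((E.comap p).map q) (zs_le hQ E) (zs_central hQ) k
      (by rw [relIndex_zs hQ hKE hEU, hk])
  have hinj : ∀ E : Subgroup Γ, K ≤ E → E ≤ U → (∃ k, K.relIndex E = ℓ ^ k) →
      ∀ E' : Subgroup Γ, K ≤ E' → E' ≤ U → (∃ k, K.relIndex E' = ℓ ^ k) →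
      Qp ℓ p q E = Qp ℓ p q E' → E = E' := by
    intro E hKE hEU hE E' hKE' hEU' hE' heq
    have h1 : (E.comap p).map q = (E'.comap p).map q := by
      rw [← (hB E hKE hEU hE).2.2.2.2, ← (hB E' hKE' hEU' hE').2.2.2.2, heq]
    ext x
    constructor
    · intro hx
      have hxr : x ∈ p.range := by rw [hQ.trp.rng]; exact hEU hx
      obtain ⟨a, rfl⟩ := hxr
      exact (mem_iff hQ hKE' a).1 (h1 ▸ (mem_iff hQ hKE a).2 hx)
    · intro hx
      have hxr : x ∈ p.range := by rw [hQ.trp.rng]; exact hEU' hx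
      obtain ⟨a, rfl⟩ := hxr
      exact (mem_iff hQ hKE a).1 (h1 ▸ (mem_iff hQ hKE' a).2 hx)
  refine ⟨?_, cyc hQ, ?_, ?_, fun a a' _ => ⟨hpU a, hpU a'⟩⟩
  · rw [eq_top_iff]
    intro x _
    obtain ⟨a, rfl⟩ := hQ.sur x
    exact ⟨a, hpU a, rfl⟩
  · intro V hKV hVU
    exact ⟨zs_le hQ V, relIndex_zs hQ hKV hVU, fun a => mem_iff hQ hKV a, card_eq hQ hKV hVU⟩
  · intro E hKE hEU hE
    obtain ⟨b1, b2, b3, b4, b5⟩ := hB E hKE hEU hE
    refine ⟨b2, b3, b1, ?_, ?_, hconj E hKE, fun E' hKE' hEU' hE' => hinj E hKE hEU hE E' hKE' hEU' hE'⟩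
    · have h1 := cmr b3
      have h2 := cmr (zs_le hQ E)
      rw [relIndex_zs hQ hKE hEU] at h2
      have h3 : padicValNat ℓ (Nat.card (Qp ℓ p q E)) =
          padicValNat ℓ (Nat.card ((E.comap p).map q)) := by
        rw [← h1, padicValNat.mul Nat.card_pos.ne' (fun h => b4 (by rw [h]; exact dvd_zero _)),
          padicValNat.eq_zero_of_not_dvd b4, add_zero]
      rw [h3, ← h2, padicValNat.mul Nat.card_pos.ne', add_comm]
      obtain ⟨k, hk⟩ := hE
      rw [hk]
      exact pow_ne_zero _ (Fact.out : ℓ.Prime).ne_zero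
    · intro V hEV hVU
      refine ⟨?_, ?_⟩
      · have h3 : (E.comap p).map q ≤ (V.comap p).map q :=
          Subgroup.map_mono (Subgroup.comap_mono hEV)
        rw [← Subgroup.relIndex_mul_relIndex _ _ _ b3 h3, relIndex_eq hQ hKE hEV hVU,
          padicValNat.mul (fun h => b4 (by rw [h]; exact dvd_zero _)),
          padicValNat.eq_zero_of_not_dvd b4, zero_add]
        exact Subgroup.index_ne_zero_of_finite (H := E.subgroupOf V)
      · have hKN : K ≤ V ⊓ Subgroup.normalizer (E : Set Γ) :=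
          le_inf (hKE.trans hEV) (hKE.trans Subgroup.le_normalizer)
        have hnorm : ∀ a : H, q a ∈ Subgroup.normalizer (Qp ℓ p q E : Set Q) ↔
            p a ∈ Subgroup.normalizer (E : Set Γ) := by
          intro a
          have e1 : q a ∈ Subgroup.normalizer (Qp ℓ p q E : Set Q) ↔
              (Qp ℓ p q E).map (MulAut.conj (q a)).toMonoidHom = Qp ℓ p q E := by
            rw [Subgroup.mem_normalizer_iff]
            constructor
            · intro h
              ext x
              constructor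
              · rintro ⟨y, hy, rfl⟩
                simpa [MulAut.conj_apply] using (h y).1 hy
              · intro hx
                refine ⟨(q a)⁻¹ * x * q a, ?_, ?_⟩
                · apply (h _).2
                  have e : q a * ((q a)⁻¹ * x * q a) * (q a)⁻¹ = x := by group
                  rw [e]; exact hx
                · simp [MulAut.conj_apply]
                  group
            · intro h x
              constructor
              · intro hx
                have h2 : (MulAut.conj (q a)).toMonoidHom x ∈ Qp ℓ p q E := by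
                  rw [← h]; exact ⟨x, hx, rfl⟩
                simpa [MulAut.conj_apply] using h2
              · intro hx
                have h2 : q a * x * (q a)⁻¹ ∈ (Qp ℓ p q E).map (MulAut.conj (q a)).toMonoidHom := by
                  rw [h]; exact hx
                obtain ⟨y, hy, hyx⟩ := h2
                have h3 : y = x := by
                  apply (MulAut.conj (q a)).injective
                  simpa [MulAut.conj_apply] using hyx
                rw [← h3]; exact hy
          have e2 : p a ∈ Subgroup.normalizer (E : Set Γ) ↔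
              E.map (MulAut.conj (p a)).toMonoidHom = E := by
            rw [Subgroup.mem_normalizer_iff]
            constructor
            · intro h
              ext x
              constructor
              · rintro ⟨y, hy, rfl⟩
                simpa [MulAut.conj_apply] using (h y).1 hy
              · intro hx
                refine ⟨(p a)⁻¹ * x * p a, ?_, ?_⟩
                · apply (h _).2
                  have e : p a * ((p a)⁻¹ * x * p a) * (p a)⁻¹ = x := by group
                  rw [e]; exact hx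
                · simp [MulAut.conj_apply]
                  group
            · intro h x
              constructor
              · intro hx
                have h2 : (MulAut.conj (p a)).toMonoidHom x ∈ E := by
                  rw [← h]; exact ⟨x, hx, rfl⟩
                simpa [MulAut.conj_apply] using h2
              · intro hx
                have h2 : p a * x * (p a)⁻¹ ∈ E.map (MulAut.conj (p a)).toMonoidHom := by
                  rw [h]; exact hx
                obtain ⟨y, hy, hyx⟩ := h2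
                have h3 : y = x := by
                  apply (MulAut.conj (p a)).injective
                  simpa [MulAut.conj_apply] using hyx
                rw [← h3]; exact hy
          rw [e1, e2, hconj E hKE a]
          have hKmap : K.map (MulAut.conj (p a)).toMonoidHom = K := by
            ext x
            constructor
            · rintro ⟨y, hy, rfl⟩
              simpa [MulAut.conj_apply] using hQ.trp.nin.nor (p a) (hpU a) y hy
            · intro hx
              refine ⟨(p a)⁻¹ * x * p a, ?_, ?_⟩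
              · have := hQ.trp.nin.nor (p a)⁻¹ (U.inv_mem (hpU a)) x hx
                rw [inv_inv] at this
                exact this
              · simp [MulAut.conj_apply]
                group
          have hKE2 : K ≤ E.map (MulAut.conj (p a)).toMonoidHom := by
            conv_lhs => rw [← hKmap]
            exact Subgroup.map_mono hKE
          have hEU2 : E.map (MulAut.conj (p a)).toMonoidHom ≤ U := by
            rintro _ ⟨y, hy, rfl⟩
            have : p a * y * (p a)⁻¹ ∈ U :=
              U.mul_mem (U.mul_mem (hpU a) (hEU hy)) (U.inv_mem (hpU a))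
            simpa [MulAut.conj_apply] using this
          have hE2 : ∃ k, K.relIndex (E.map (MulAut.conj (p a)).toMonoidHom) = ℓ ^ k := by
            obtain ⟨k, hk⟩ := hE
            refine ⟨k, ?_⟩
            rw [← hk]
            conv_lhs => rw [← hKmap]
            exact Subgroup.relIndex_map_map_of_injective _ _ (MulAut.conj (p a)).injective
          constructor
          · intro h
            exact hinj _ hKE2 hEU2 hE2 E hKE hEU hE h
          · intro h
            rw [h]
        ext x
        obtain ⟨a, rfl⟩ := hQ.sur x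
        rw [mem_iff hQ hKN a, Subgroup.mem_inf, Subgroup.mem_inf, mem_iff hQ (hKE.trans hEV) a,
          hnorm a]

end Pool.Agent.H54.T2.QG
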